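import Mathlib
import Pool.Agent.H977R3.AB.Finite
import Pool.Agent.H977R3.AB.Patterns

/-!
# Tate classes on products of varieties over finite fields: Weil numbers in abelian CM fields

Let `X i` be finitely many smooth projective varieties over the field with `p ^ a` elements,
`V i` the dual of (a Frobenius-stable part of) the cohomology group of `X i` in degree `w i`, with
coefficients extended to an algebraically closed field, `F i` the transpose of the Frobenius,
`m i = a * w i`; forms in variables `v k ∈ V (t k)` are elements of the tensor product of the
cohomology groups.  Suppose that the eigenvalues of `F i` are conjugates of one number `π i`, which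
generates a CM field `K i`, abelian over `ℚ`, and that for `i ≠ i'` the images of `K i` and `K i'`
in `ℂ` have only real numbers in common (`RealMeet`).  Let `u i τ` be the numbers
`2 v (τ (π i)) - m i` (`τ` running through the `p`-adic embeddings of `K i`), divided by a common
factor `κ i ≠ 0` and integral, and suppose that for every odd character of the Galois group of `K i`
the sum of the products of the values of `u i` and of the character does not vanish (`OddSums`).

Then every Tate class, over any finite extension, in any tensor product of these groups is a
linear combination of products of pairings `B (F x, F y) = q ^ (w i) B (x, y)`, that is, of Tate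
classes on `X i × X i`.  For `w i = 1` these are classes of divisors by the theorem of Tate, so the
Tate conjecture holds for all products of powers of these abelian varieties.

The condition on the odd character sums holds for most slopes: let `K i` have degree `2 g`; if the
absolute values `w` of `u i` are given (positive, equal at conjugate embeddings; equal to `1` for
ordinary abelian varieties), there are `2 ^ g` functions `u i`, one for each choice of the signs, and
at most `N * g.choose (g / 2)` of them do not satisfy the condition, `N` the number of cyclic CM
subfields of `K i` (first part of the theorem; a bound of Littlewood and Offord type by Sperner's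
theorem, for one character of each kernel).

Examples of such Weil numbers of all weights are Jacobi sums (in cyclotomic fields).
-/

namespace Pool.Agent.Results.MP_950c68_ag.AbelianWeilNumbers

open Module NumberField Pool.Agent.H485R3 Pool.Agent.H977R3.AB

/-- First part: the number of sign patterns with a vanishing odd character sum.  Second part: all
Tate classes in the tensor products are combinations of products of pairings. -/
theorem result (p : ℕ) [Fact p.Prime] {I : Type} [Fintype I] (K : I → Type)
    [∀ i, Field (K i)] [∀ i, NumberField (K i)] [∀ i, IsCMField (K i)]
    [∀ i, IsAbelianGalois ℚ (K i)]
    (hmeet : ∀ i i', i ≠ i' → RealMeet (K i) (K i')) :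
    (∀ i, ∀ w : (K i →+* PadicAlgCl p) → ℤ, (∀ τ, 0 < w τ) →
      (∀ τ, w (τ.comp (conj (K i) : K i →+* K i)) = w τ) →
      (vanishingPatterns w).ncard ≤
        (cyclicCM (K i)).ncard * (finrank ℚ (K i) / 2).choose (finrank ℚ (K i) / 2 / 2)) ∧
    ∀ (m : I → ℕ) (π : ∀ i, K i) (u : ∀ i, (K i →+* PadicAlgCl p) → ℤ),
      (∀ i, IsWeilWithSlopes p (m i) (π i) (u i)) → (∀ i, OddSums (u i)) →
      TateFromPairings p m π := by
  refine ⟨fun i w hw hwc => ncard_not_oddSums_le w hw hwc, ?_⟩
  intro m π u hu hodd Ω _ _ _ V _ _ _ F hF n t s hs c hc φ hφ
  have h1 := fun i => (hu i).1
  have h2 := fun i => (hu i).2.1
  have h3 := fun i => (hu i).2.2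
  choose κ hκ hslope using h3
  exact finite_abelian p K hmeet m π h1 h2 κ hκ u hslope hodd V F hF t s hs c hc φ hφ

end Pool.Agent.Results.MP_950c68_ag.AbelianWeilNumbers
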