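import Mathlib
import Pool.Agent.H194R3.Weil.Low

/-!
# The Tate conjecture for simple abelian varieties over finite fields, outside the middle degree

Let `A` be an abelian variety of dimension `n` over the field with `p ^ m` elements, `V` its first
cohomology group (coefficients extended to an algebraically closed field), `F` the Frobenius.
Suppose that the eigenvalues of `F` are simple and are the conjugates of a number `π` all powers of
which generate a CM field `K` of degree `2 * n` (so `A` is absolutely simple), that the maximal real
subfield of `K` is pair-transitive (the automorphisms of the complex numbers act transitively on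
the unordered pairs of its embeddings; no other condition on the Galois group of `K`), and that `n`
is odd, or `n - 1` is prime, or the action is also transitive on the unordered triples (for
example: the Galois group of the real subfield is the symmetric or alternating group, of any
degree). There is no condition on the slopes, and `K` may contain an imaginary quadratic field.

Then every Tate class on `A` over any finite extension in any degree `2 * r` different from `n` is
a polynomial in Tate classes of degree two (over the ground field; classes of divisors by the
theorem of Tate). In particular, if `n` is odd, the Tate conjecture holds for `A` over all finite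
extensions. If `2 * r = n` this is also true, unless `π` is of Weil type (`WeilSlopes`); then there
are exceptional classes in the middle degree `n`.
-/

set_option autoImplicit false

namespace Pool.Agent.Results.MP_950c68_ag.AllButMiddleDegree

open Module NumberField Pool.Agent.H194R3.CM Pool.Agent.H194R3.Tate

theorem result (p : ℕ) [Fact p.Prime] {K : Type} [Field K] [NumberField K] [IsCMField K]
    (hpair : PairTransitive (maximalRealSubfield K))
    (hdeg : Odd (finrank ℚ (maximalRealSubfield K)) ∨
      (finrank ℚ (maximalRealSubfield K) - 1).Prime ∨ TripleTransitive (maximalRealSubfield K))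
    (m : ℕ) (π : K) (hint : IsIntegral ℤ π)
    (hgen : ∀ s : ℕ, 0 < s → IntermediateField.adjoin ℚ {π ^ s} = ⊤)
    (hweil : ∀ φ : K →+* ℂ, ‖φ π‖ ^ 2 = (p : ℝ) ^ m)
    {Ω : Type*} [Field Ω] [IsAlgClosed Ω] [CharZero Ω]
    {V : Type*} [AddCommGroup V] [Module Ω V] (F : V →ₗ[Ω] V)
    (hF : Submodule.span Ω {v : V | ∃ σ : K →+* Ω, F v = σ π • v} = ⊤)
    (hmult : ∀ (σ : K →+* Ω) (v w : V), F v = σ π • v → F w = σ π • w → v ≠ 0 →
      ∃ b : Ω, w = b • v)
    (r s : ℕ) (hs : 0 < s)
    (hr : WeilSlopes p π m → 2 * r ≠ finrank ℚ (maximalRealSubfield K))
    (x : ExteriorAlgebra Ω V) (hx : x ∈ ⋀[Ω]^(2 * r) V)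
    (hFx : ExteriorAlgebra.map (F ^ s) x = (((p : Ω) ^ m) ^ r) ^ s • x) :
    x ∈ Algebra.adjoin Ω
      {y : ExteriorAlgebra Ω V | y ∈ ⋀[Ω]^2 V ∧ ExteriorAlgebra.map F y = (p : Ω) ^ m • y} := by
  refine Pool.Agent.H194R3.Weil.simple_spectrum p m π hint hgen (fun φ => ?_) hpair hdeg F hF
    hmult r s hs hr x hx hFx
  rw [hweil φ]
  push_cast
  rfl

end Pool.Agent.Results.MP_950c68_ag.AllButMiddleDegree
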