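import Mathlib
import Pool.Agent.H371R3.Tate.DT

/-!
# Tate classes on all powers of abelian varieties over finite fields with doubly transitive
# Galois action on the pairs of Frobenius eigenvalues

Let `q = p ^ a` and let `f` be an irreducible rational polynomial of degree `2 g` all of whose
complex roots have absolute value `√q`.  (For an abelian variety `A` over the field `k` with `q`
elements whose Frobenius has characteristic polynomial a power of `f`, the roots of `f` are the
Frobenius eigenvalues on `H¹` of `A` and of all powers of `A`.)  For a root `α` of `f` in the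
algebraic closure of `ℚ_p` let `slope α` be its valuation, normalised by `slope q = 1`.

Assume

* the Galois group of `f` acts doubly transitively on the `g` numbers `x + q / x`, `x` a root of `f`
  (the conjugates of a generator of the maximal real subfield of `K = ℚ[X] / (f)`);
* not all slopes are `1 / 2`;
* `g` is odd, or `g - 1` is `1` or a prime, or the Galois group is triply transitive on the numbers
  `x + q / x`, or suitably normalised deviations `N (2 slope - 1)` are integers with an odd sum over
  each half system (one root out of each pair `{α, q / α}`);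
* if `K` contains an imaginary quadratic field `E` (`P ^ 2 = - n` in `K`, `E = ℚ(P)`), then for each
  embedding of `E` in the algebraic closure of `ℚ_p` the slopes of the `g` roots of `f` lying over
  this embedding are not all equal, and their mean is not `1 / 2`.

Then, for every vector space `V` over an algebraically closed field `Ω` of characteristic zero and
every endomorphism `F` that is diagonalisable with eigenvalues among the roots of `f`, for all `m`
and all `s ≥ 1`, every element of `Λ^{2m} V` on which `F ^ s` acts as `q ^ {ms}` is a polynomial in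
the elements of `Λ² V` on which `F` acts as `q`.

The idea: a nontrivial relation between the Frobenius eigenvalues gives a regular two-graph on the
`g` pairs, whose two eigenvalues have product `- (g - 1)`; parity of the eigenvalues (or their
size) forces the relation or the vector of deviations to be constant up to sign, and such a
vector generates an imaginary quadratic subfield of `K`.
-/

namespace Pool.Agent.Results.MP_950c68_ag.DoublyTransitive

open Polynomial

/-- The `p`-adic valuation of `α`, normalised so that `p ^ a` has valuation `1`. -/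
noncomputable def slope (p : ℕ) [Fact p.Prime] (a : ℕ) (α : PadicAlgCl p) : ℝ :=
  -Real.logb ((p : ℝ) ^ a) ‖α‖

/-- The Galois group of `f` acts `k`-fold transitively on the numbers `x + q / x`, `x` running
through the roots of `f`. -/
def IsTransitive (k : ℕ) (f : ℚ[X]) (q : ℕ) : Prop :=
  ∀ x y : Fin k → f.SplittingField, (∀ i, aeval (x i) f = 0) → (∀ i, aeval (y i) f = 0) →
    Function.Injective (fun i => x i + (q : f.SplittingField) / x i) →
    Function.Injective (fun i => y i + (q : f.SplittingField) / y i) →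
    ∃ σ : f.SplittingField ≃ₐ[ℚ] f.SplittingField, ∀ i,
      σ (x i + (q : f.SplittingField) / x i) = y i + (q : f.SplittingField) / y i

open Classical in
theorem result (p : ℕ) [Fact p.Prime] (a : ℕ) (ha : 0 < a)
    (f : ℚ[X]) (hf : Irreducible f) (g : ℕ) (hdeg : f.natDegree = 2 * g)
    (hweil : ∀ z : ℂ, aeval z f = 0 → ‖z‖ ^ 2 = (p : ℝ) ^ a)
    -- the Galois group of `f` is doubly transitive on the numbers `x + q / x`
    (hdt : IsTransitive 2 f (p ^ a))
    -- not supersingular
    (hns : ∃ α : PadicAlgCl p, aeval α f = 0 ∧ slope p a α ≠ 1 / 2)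
    -- the condition on `g`, or triple transitivity, or the parity of the deviations
    (hg : Odd g ∨ g - 1 = 1 ∨ (g - 1).Prime ∨ IsTransitive 3 f (p ^ a) ∨
      ∃ (N : ℕ) (u : PadicAlgCl p → ℤ), 0 < N ∧
        (∀ α : PadicAlgCl p, aeval α f = 0 → (N : ℝ) * (2 * slope p a α - 1) = (u α : ℝ)) ∧
        ∀ Φ : Finset (PadicAlgCl p), (∀ α ∈ Φ, aeval α f = 0) →
          (∀ α : PadicAlgCl p, aeval α f = 0 → (α ∈ Φ ↔ (p : PadicAlgCl p) ^ a / α ∉ Φ)) →
          Odd (∑ α ∈ Φ, u α))
    -- the condition on imaginary quadratic subfields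
    (hquad : ∀ (P : ℚ[X]) (n : ℕ), 0 < n → f ∣ P ^ 2 + C (n : ℚ) →
      ∀ t : PadicAlgCl p, t ^ 2 = -(n : PadicAlgCl p) →
        (∃ α β : PadicAlgCl p, aeval α f = 0 ∧ aeval β f = 0 ∧ aeval α P = t ∧ aeval β P = t ∧
          slope p a α ≠ slope p a β) ∧
        ∑ α : f.rootSet (PadicAlgCl p) with aeval α.1 P = t, (slope p a α.1 - 1 / 2) ≠ 0)
    (Ω : Type*) [Field Ω] [IsAlgClosed Ω] [CharZero Ω]
    (V : Type*) [AddCommGroup V] [Module Ω V] (F : V →ₗ[Ω] V)
    (hF : Submodule.span Ω {v : V | ∃ μ : Ω, aeval μ f = 0 ∧ F v = μ • v} = ⊤)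
    (m s : ℕ) (hs : 0 < s) (x : ExteriorAlgebra Ω V) (hx : x ∈ ⋀[Ω]^(2 * m) V)
    (hFx : ExteriorAlgebra.map (F ^ s) x = (((p : Ω) ^ a) ^ m) ^ s • x) :
    x ∈ Algebra.adjoin Ω
      {y : ExteriorAlgebra Ω V | y ∈ ⋀[Ω]^2 V ∧ ExteriorAlgebra.map F y = (p : Ω) ^ a • y} := by
  have hq : (0 : ℚ) < (p : ℚ) ^ a := pow_pos (by exact_mod_cast (Fact.out : p.Prime).pos) a
  have hweil' : ∀ z : ℂ, aeval z f = 0 → ‖z‖ ^ 2 = (((p : ℚ) ^ a : ℚ) : ℝ) := by
    intro z hz
    rw [hweil z hz]
    push_cast
    rfl
  have hp1 : (1 : ℝ) < (p : ℝ) ^ a :=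
    one_lt_pow₀ (by exact_mod_cast (Fact.out : p.Prime).one_lt) ha.ne'
  have hlog : 0 < Real.log ((p : ℝ) ^ a) := Real.log_pos hp1
  have hdev : ∀ α : PadicAlgCl p, Pool.Agent.H925R2.dev p ((p : ℚ) ^ a) α =
      - Real.log ((p : ℝ) ^ a) * (2 * slope p a α - 1) := by
    intro α
    rw [Pool.Agent.H925R2.dev_pow p a ha α]
    rfl
  have hcastS : ((((p : ℚ) ^ a : ℚ)) : f.SplittingField) = (p : f.SplittingField) ^ a := by
    push_cast
    rfl
  have hcastp : ((((p : ℚ) ^ a : ℚ)) : PadicAlgCl p) = (p : PadicAlgCl p) ^ a := by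
    push_cast
    rfl
  have hcastN : ((p ^ a : ℕ) : f.SplittingField) = (p : f.SplittingField) ^ a := by
    push_cast
    rfl
  have inj2 : ∀ x y : f.SplittingField,
      x + ((p ^ a : ℕ) : f.SplittingField) / x ≠ y + ((p ^ a : ℕ) : f.SplittingField) / y →
      Function.Injective (fun i : Fin 2 => ![x, y] i + ((p ^ a : ℕ) : f.SplittingField) / ![x, y] i) := by
    intro x y h i j hij
    fin_cases i <;> fin_cases j
    · rfl
    · exact absurd hij h
    · exact absurd hij.symm h
    · rfl
  have inj3 : ∀ x y z : f.SplittingField,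
      x + ((p ^ a : ℕ) : f.SplittingField) / x ≠ y + ((p ^ a : ℕ) : f.SplittingField) / y →
      y + ((p ^ a : ℕ) : f.SplittingField) / y ≠ z + ((p ^ a : ℕ) : f.SplittingField) / z →
      x + ((p ^ a : ℕ) : f.SplittingField) / x ≠ z + ((p ^ a : ℕ) : f.SplittingField) / z →
      Function.Injective (fun i : Fin 3 =>
        ![x, y, z] i + ((p ^ a : ℕ) : f.SplittingField) / ![x, y, z] i) := by
    intro x y z h h' h'' i j hij
    fin_cases i <;> fin_cases j
    · rfl
    · exact absurd hij h
    · exact absurd hij h''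
    · exact absurd hij.symm h
    · rfl
    · exact absurd hij h'
    · exact absurd hij.symm h''
    · exact absurd hij.symm h'
    · rfl
  have hns' : ∃ α : PadicAlgCl p, aeval α f = 0 ∧
      Pool.Agent.H925R2.dev p ((p : ℚ) ^ a) α ≠ 0 := by
    obtain ⟨α, hα, hne⟩ := hns
    refine ⟨α, hα, fun h => hne ?_⟩
    rw [hdev] at h
    have h1 := (mul_eq_zero.1 h).resolve_left (neg_ne_zero.2 hlog.ne')
    linarith
  let e : f.SplittingField →ₐ[ℚ] PadicAlgCl p := IsAlgClosed.lift
  have hroot : ∀ x : f.rootSet f.SplittingField, aeval (e x.1) f = 0 := by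
    intro x
    rw [aeval_algHom_apply, (mem_rootSet.1 x.2).2, map_zero]
  have hdt' : Pool.Agent.H925R2.DoublyTransitive f ((p : ℚ) ^ a) := by
    intro x y x' y' h1 h2 h3 h4 h5 h6
    rw [hcastS] at h5 h6
    obtain ⟨σ, h7⟩ := hdt ![x, y] ![x', y'] (by simp [Fin.forall_fin_succ, h1, h2])
      (by simp [Fin.forall_fin_succ, h3, h4])
      (inj2 _ _ (by simpa [hcastN] using h5)) (inj2 _ _ (by simpa [hcastN] using h6))
    refine ⟨σ, ?_, ?_⟩
    · have := h7 0
      rw [hcastN] at this
      rw [hcastS]; exact this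
    · have := h7 1
      rw [hcastN] at this
      rw [hcastS]; exact this
  have htt' : IsTransitive 3 f (p ^ a) →
      Pool.Agent.H371R3.Tate.TriplyTransitive f ((p : ℚ) ^ a) := by
    intro htt x y z x' y' z' h1 h2 h3 h1' h2' h3' h4 h5 h6 h4' h5' h6'
    rw [hcastS] at h4 h5 h6 h4' h5' h6'
    obtain ⟨σ, h7⟩ := htt ![x, y, z] ![x', y', z'] (by simp [Fin.forall_fin_succ, h1, h2, h3])
      (by simp [Fin.forall_fin_succ, h1', h2', h3'])
      (inj3 _ _ _ (by simpa [hcastN] using h4) (by simpa [hcastN] using h5)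
        (by simpa [hcastN] using h6))
      (inj3 _ _ _ (by simpa [hcastN] using h4') (by simpa [hcastN] using h5')
        (by simpa [hcastN] using h6'))
    refine ⟨σ, ?_, ?_, ?_⟩
    · have := h7 0
      rw [hcastN] at this
      rw [hcastS]; exact this
    · have := h7 1
      rw [hcastN] at this
      rw [hcastS]; exact this
    · have := h7 2
      rw [hcastN] at this
      rw [hcastS]; exact this
  have hquad' : Pool.Agent.H371R3.Tate.QuadCond p f ((p : ℚ) ^ a) := by
    intro P n hn hP t ht
    obtain ⟨⟨α, β, h1, h2, h3, h4, h5⟩, h6⟩ := hquad P n hn hP t ht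
    refine ⟨⟨α, β, h1, h2, h3, h4, fun h => h5 ?_⟩, fun h => h6 ?_⟩
    · rw [hdev, hdev] at h
      have := mul_left_cancel₀ (neg_ne_zero.2 hlog.ne') h
      linarith
    · have h7 : ∀ α : f.rootSet (PadicAlgCl p), Pool.Agent.H925R2.dev p ((p : ℚ) ^ a) α.1 =
          (- 2 * Real.log ((p : ℝ) ^ a)) * (slope p a α.1 - 1 / 2) := by
        intro α
        rw [hdev]
        ring
      rw [Finset.sum_congr rfl fun α _ => h7 α, ← Finset.mul_sum] at h
      exact (mul_eq_zero.1 h).resolve_left (mul_ne_zero (by norm_num) hlog.ne')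
  -- no nontrivial relations
  have hno : ∀ c : f.rootSet f.SplittingField → ℤ,
      (∀ x, c (Pool.Agent.H925R2.rinv hf hq hweil' x) = - c x) →
      (∀ g : f.Gal, ∑ x : f.rootSet f.SplittingField, (c x : ℝ) *
        Pool.Agent.H925R2.dev p ((p : ℚ) ^ a) (e (g • x : f.rootSet f.SplittingField).1) = 0) →
      ∀ x, c x = 0 := by
    intro c hc hrel
    have gen : (Odd g ∨ g = 2 ∨ (g - 1).Prime ∨ (3 ≤ g ∧ IsTransitive 3 f (p ^ a))) →
        ∀ x, c x = 0 := by
      intro hg'
      obtain ⟨κ, U, hκ, hU⟩ := Pool.Agent.H925R2.exists_int_dev p hf.ne_zero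
        (Pool.Agent.H925R2.padic_root_ne_zero hf hq hweil' p) hq.ne'
      refine Pool.Agent.H371R3.Tate.norel_of_doublyTransitive hf hq hweil' p e hdt' g hdeg κ hκ.ne' U
        hU hns' ?_ hquad' c hc hrel
      rcases hg' with h | h | h | h
      · exact Or.inl h
      · exact Or.inr (Or.inl h)
      · exact Or.inr (Or.inr (Or.inl h))
      · exact Or.inr (Or.inr (Or.inr (Or.inl ⟨h.1, htt' h.2⟩)))
    rcases hg with h | h | h | h | h
    · exact gen (Or.inl h)
    · exact gen (Or.inr (Or.inl (by omega)))
    · exact gen (Or.inr (Or.inr (Or.inl h)))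
    · have hg0 : g ≠ 0 := by
        intro h0
        have h1 := hf.natDegree_pos
        omega
      by_cases hg1 : g = 1
      · exact gen (Or.inl (by rw [hg1]; exact odd_one))
      by_cases hg2 : g = 2
      · exact gen (Or.inr (Or.inl hg2))
      exact gen (Or.inr (Or.inr (Or.inr ⟨by omega, h⟩)))
    · obtain ⟨N, u, hN, hu, hodd⟩ := h
      have hN' : (N : ℝ) ≠ 0 := by exact_mod_cast hN.ne'
      refine Pool.Agent.H371R3.Tate.norel_of_doublyTransitive hf hq hweil' p e hdt' g hdeg
        (-(Real.log ((p : ℝ) ^ a) / N)) (neg_ne_zero.2 (div_ne_zero hlog.ne' hN')) u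
        ?_ hns' (Or.inr (Or.inr (Or.inr (Or.inr ?_)))) hquad' c hc hrel
      · intro α hα
        rw [hdev, ← hu α hα]
        field_simp
      · intro Φ hΦ
        have hinj : Function.Injective (fun x : f.rootSet f.SplittingField => e x.1) :=
          fun a b h => Subtype.ext (e.injective h)
        have h3 : ∀ z : f.rootSet f.SplittingField, e z.1 ∈ Φ.image (fun x => e x.1) ↔ z ∈ Φ := by
          intro z
          rw [Finset.mem_image]
          constructor
          · rintro ⟨w, hw, hwz⟩
            rwa [← hinj hwz]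
          · intro hz
            exact ⟨z, hz, rfl⟩
        have h1 := hodd (Φ.image (fun x => e x.1)) (by
          intro α hα
          obtain ⟨x, _, rfl⟩ := Finset.mem_image.1 hα
          exact hroot x) (by
          intro α hα
          obtain ⟨x, rfl⟩ := Pool.Agent.H925R2.exists_root_eq hf e α hα
          have h2 : (p : PadicAlgCl p) ^ a / e x.1 =
              e (Pool.Agent.H925R2.rinv hf hq hweil' x).1 := by
            rw [Pool.Agent.H925R2.rinv_coe, map_div₀, map_ratCast, hcastp]
          rw [h2, h3, h3]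
          exact hΦ x)
        rw [Finset.sum_image (fun a _ b _ h => hinj h)] at h1
        intro hdvd
        exact (Int.not_even_iff_odd.2 h1) (even_iff_two_dvd.2 hdvd)
  refine Pool.Agent.H925R2.ext_of_balanced p a hf hweil ?_ F hF m s ?_ x hx hFx
  · intro x hx h
    exact Pool.Agent.H925R2.rinv_ne_of_dev hf hq hweil' p e hns'
      ⟨x, mem_rootSet.2 ⟨hf.ne_zero, hx⟩⟩ (Subtype.ext h)
  · intro _ L hlen hL hprod y hy
    exact Pool.Agent.H925R2.balanced_of_norel hf hq hweil' p e hno L m s hs hlen hL hprod y hy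

end Pool.Agent.Results.MP_950c68_ag.DoublyTransitive
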