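import Pool.Agent.H447R3.FgF

open CategoryTheory AlgebraicGeometry

universe u v w

open Pool.Agent.H914 Pool.Agent.H914.VarClass Pool.Agent.H914.VarClass.Obj Pool.Agent.H447

/-- **The Tate conjecture for all products follows from products of a bounded number of varieties.**
For all natural numbers `q ≠ 0`, `n` and `B` there is a number `N` with the following property. Let
`X i` be smooth proper varieties of dimension at most `n` over an algebraically closed field, with
endomorphisms `f i` which in a Weil cohomology theory `W` satisfy the Weil conjectures relative to
`q` and with Betti numbers at most `B` (in the intended use: varieties over a field with `q`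
elements and their Frobenius endomorphisms). If the strong Tate conjecture (algebraic classes are
all generalized eigenvectors of powers of Frobenius for the powers of `q`, in all codimensions)
holds for all products of at most `N` of the `X i`, then it holds for all products of any number of
the `X i`. The number `N` depends only on `q`, `n` and `B`. -/
theorem Pool.Agent.Results.MP_950c68_ag.FinitelyManyPowers.result (q : ℕ) (hq : q ≠ 0)
    (n B : ℕ) :
    ∃ N : ℕ, ∀ {k : Type u} [Field k] [IsAlgClosed k] {𝒱 : VarClass k} {ops : CycleOps 𝒱}
      (W : WeilCohomology.{u, v} ops) {ι : Type w} (X : ι → 𝒱.Obj) (f : ∀ i, X i ⟶ X i),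
      (∀ i, (X i).dim ≤ n) → (∀ i, WeilBound W (X i) (f i) q B) →
      (∀ i l, l.length < N → StrongTate W (listProd X i l) (listMap X f i l) q) →
      ∀ i l, StrongTate W (listProd X i l) (listMap X f i l) q := by
  obtain ⟨N, hN⟩ := strongTate_weil.{u, v, w} q hq n B
  refine ⟨N, ?_⟩
  intro k _ _ 𝒱 ops W ι X f
  exact hN W X f
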